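import Pool.Agent.U180.NG.Stm

set_option autoImplicit false

open MeasureTheory ProbabilityTheory Filter Topology
open Pool.Agent.H469R2.NK (e)
open Pool.Agent.U180.NG

namespace Pool.Agent.U333.NG

/-- Fourier series of the periodic Bernoulli function, on `[0,1]`. -/
lemma hasSum_b2_Icc {x : ℝ} (hx : x ∈ Set.Icc (0 : ℝ) 1) :
    HasSum (fun n : ℕ => 1 / (n : ℝ) ^ 2 * Real.cos (2 * Real.pi * n * x))
      (Real.pi ^ 2 * (x ^ 2 - x + 1 / 6)) := by
  have h := hasSum_one_div_nat_pow_mul_cos (k := 1) one_ne_zero hx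
  have e1 : ((-1 : ℝ) ^ (1 + 1) * (2 * Real.pi) ^ (2 * 1) / 2 / ((2 * 1).factorial : ℝ) *
        (Polynomial.map (algebraMap ℚ ℝ) (Polynomial.bernoulli (2 * 1))).eval x) =
      Real.pi ^ 2 * (x ^ 2 - x + 1 / 6) := by
    have hB : (Polynomial.map (algebraMap ℚ ℝ) (Polynomial.bernoulli (2 * 1))).eval x =
        x ^ 2 - x + 1 / 6 := by
      simp [Polynomial.bernoulli_def, Finset.sum_range_succ, bernoulli_eq_bernoulli'_of_ne_one,
        Polynomial.eval_add]
      ring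
    rw [hB]
    have h2 : ((2 * 1).factorial : ℝ) = 2 := by norm_num [Nat.factorial]
    rw [h2]
    ring
  rw [e1] at h
  simpa using h

/-- Fourier series of the periodic Bernoulli function. -/
lemma hasSum_b2 (x : ℝ) :
    HasSum (fun n : ℕ => 1 / (n : ℝ) ^ 2 * Real.cos (2 * Real.pi * n * x))
      (Real.pi ^ 2 * b2 x) := by
  have h := hasSum_b2_Icc (x := Int.fract x) ⟨Int.fract_nonneg x, (Int.fract_lt_one x).le⟩
  have e1 : (fun n : ℕ => 1 / (n : ℝ) ^ 2 * Real.cos (2 * Real.pi * n * Int.fract x)) =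
      fun n : ℕ => 1 / (n : ℝ) ^ 2 * Real.cos (2 * Real.pi * n * x) := by
    funext n
    congr 1
    have : 2 * Real.pi * n * x = 2 * Real.pi * n * Int.fract x +
        (((n : ℤ) * ⌊x⌋ : ℤ) : ℝ) * (2 * Real.pi) := by
      conv_lhs => rw [← Int.floor_add_fract x]
      push_cast
      ring
    rw [this, Real.cos_add_int_mul_two_pi]
  rw [e1] at h
  exact h

lemma e_re (x : ℝ) : (e x).re = Real.cos (2 * Real.pi * x) := by
  unfold Pool.Agent.H469R2.NK.e
  rw [Complex.exp_ofReal_mul_I_re]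

lemma cos_sum_le (s : Finset ℤ) (f : ℤ → ℝ) (n : ℕ) (c B : ℝ)
    (h : ‖∑ m ∈ s, e (n * f m)‖ ≤ B) :
    |∑ m ∈ s, Real.cos (2 * Real.pi * n * (f m + c))| ≤ B := by
  have e1 : ∑ m ∈ s, Real.cos (2 * Real.pi * n * (f m + c)) =
      (e (n * c) * ∑ m ∈ s, e (n * f m)).re := by
    rw [Finset.mul_sum, Complex.re_sum]
    apply Finset.sum_congr rfl
    intro m _
    rw [← Pool.Agent.H469R2.NK.e_add, e_re]
    congr 1
    ring
  rw [e1]
  calc |(e (n * c) * ∑ m ∈ s, e (n * f m)).re| ≤ ‖e (n * c) * ∑ m ∈ s, e (n * f m)‖ :=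
        Complex.abs_re_le_norm _
    _ = ‖∑ m ∈ s, e (n * f m)‖ := by rw [norm_mul, Pool.Agent.H469R2.NK.norm_e, one_mul]
    _ ≤ B := h

theorem t_B2 (h : S_EXP) : S_B2 := by
  obtain ⟨C, hC, h⟩ := h
  have hsum : Summable (fun n : ℕ => 1 / (n : ℝ) ^ (3 / 2 : ℝ)) :=
    Real.summable_one_div_nat_rpow.mpr (by norm_num)
  set Z : ℝ := ∑' n : ℕ, 1 / (n : ℝ) ^ (3 / 2 : ℝ) with hZ
  have hZ0 : 0 ≤ Z := tsum_nonneg fun n => by positivity
  refine ⟨(C * Z + 1) / Real.pi ^ 2, by positivity, ?_⟩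
  intro R y c hR
  have hs : HasSum (fun n : ℕ => 1 / (n : ℝ) ^ 2 *
      ∑ m ∈ rows R y, Real.cos (2 * Real.pi * n * (hl R y m + c)))
      (Real.pi ^ 2 * ∑ m ∈ rows R y, b2 (hl R y m + c)) := by
    have := hasSum_sum (s := rows R y) (fun m _ => hasSum_b2 (hl R y m + c))
    rw [← Finset.mul_sum] at this
    refine this.congr_fun ?_ 
    intro n
    rw [Finset.mul_sum]
  have hb : HasSum (fun n : ℕ => C * Real.sqrt R * (1 / (n : ℝ) ^ (3 / 2 : ℝ)))
      (C * Real.sqrt R * Z) := hsum.hasSum.mul_left _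
  have hle : ‖Real.pi ^ 2 * ∑ m ∈ rows R y, b2 (hl R y m + c)‖ ≤ C * Real.sqrt R * Z := by
    rw [← hs.tsum_eq]
    refine tsum_of_norm_bounded hb ?_
    intro n
    rcases Nat.eq_zero_or_pos n with hn | hn
    · subst hn
      simp
    · have h1 := cos_sum_le (rows R y) (hl R y) n c _ (h n R y hn hR)
      have hn' : (0 : ℝ) < n := by exact_mod_cast hn
      rw [Real.norm_eq_abs, abs_mul, abs_of_nonneg (by positivity)]
      calc 1 / (n : ℝ) ^ 2 * |∑ m ∈ rows R y, Real.cos (2 * Real.pi * n * (hl R y m + c))|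
          ≤ 1 / (n : ℝ) ^ 2 * (C * Real.sqrt (n * R)) := by
            apply mul_le_mul_of_nonneg_left h1; positivity
        _ = C * Real.sqrt R * (1 / (n : ℝ) ^ (3 / 2 : ℝ)) := by
            rw [Real.sqrt_mul hn'.le]
            have : (1 : ℝ) / (n : ℝ) ^ 2 * Real.sqrt n = 1 / (n : ℝ) ^ (3 / 2 : ℝ) := by
              rw [Real.sqrt_eq_rpow, ← Real.rpow_natCast (n : ℝ) 2, one_div ((n : ℝ) ^ ((2 : ℕ) : ℝ)),
                one_div ((n : ℝ) ^ (3 / 2 : ℝ)),
                ← Real.rpow_neg hn'.le, ← Real.rpow_neg hn'.le, ← Real.rpow_add hn']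
              congr 1
              norm_num
            rw [← this]
            ring
  rw [Real.norm_eq_abs, abs_mul, abs_of_nonneg (by positivity : (0 : ℝ) ≤ Real.pi ^ 2)] at hle
  rw [div_mul_eq_mul_div, le_div_iff₀ (by positivity)]
  have : 0 ≤ Real.sqrt R := Real.sqrt_nonneg _
  nlinarith [hle, this]

end Pool.Agent.U333.NG
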